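import Mathlib

set_option autoImplicit false

/-!
# The numerical inequalities
-/

namespace Pool.Agent.helper57.BisM

/-- the basic facts on the constants -/
theorem consts (c L ω : ℝ) (hc : 0 < c) (hc32 : c ≤ 1 / 32) (m W n : ℕ)
    (hL : 1 ≤ L) (hX : (1024 : ℝ) ≤ Real.exp L) (hmL : (m : ℝ) ≤ Real.exp L)
    (hcL : 512 * L ≤ c ^ 2 * m) (hω1 : Real.exp (-(100 * L)) ≤ ω)
    (hW : (W : ℝ) ≤ 4 * Real.exp (-(8 * c ^ 2 * m)) * n) :
    ∃ X x B : ℝ, X = Real.exp L ∧ 1024 ≤ X ∧ 0 < x ∧ X * x = 1 ∧ x ≤ 1 / 1024 ∧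
      Real.exp (5 * L) = X ^ 5 ∧ Real.exp (-L) = x ∧ Real.exp (-(2 * L)) = x ^ 2 ∧
      0 < B ∧ B ≤ ω ∧ B ≤ x ^ 12 ∧ (W : ℝ) ≤ 4 * B * B * n ∧ 512 ≤ c ^ 2 * X ∧
      16384 ≤ c * X ∧ 16384 ≤ c * m ∧ 512 ≤ c ^ 2 * m := by
  have hn0 : (0 : ℝ) ≤ n := Nat.cast_nonneg _
  have hx : Real.exp (-L) ≤ 1 / 1024 := by
    rw [Real.exp_neg, inv_eq_one_div]
    exact one_div_le_one_div_of_le (by norm_num) hX
  have h512 : (512 : ℝ) ≤ c ^ 2 * m := by linarith
  have hcm : 16384 ≤ c * m := by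
    have h1 : c ^ 2 * m ≤ 1 / 32 * (c * m) := by
      have : c * (c * m) ≤ 1 / 32 * (c * m) := mul_le_mul_of_nonneg_right hc32 (by positivity)
      calc c ^ 2 * m = c * (c * m) := by ring
        _ ≤ _ := this
    linarith
  refine ⟨Real.exp L, Real.exp (-L), Real.exp (-(100 * L)), rfl, hX, Real.exp_pos _, ?_, hx, ?_,
    rfl, ?_, Real.exp_pos _, hω1, ?_, ?_, ?_, ?_, hcm, h512⟩
  · rw [← Real.exp_add]
    simp
  · rw [← Real.exp_nat_mul]
    push_cast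
    ring_nf
  · rw [← Real.exp_nat_mul]
    push_cast
    ring_nf
  · rw [← Real.exp_nat_mul]
    apply Real.exp_le_exp.2
    push_cast
    linarith
  · have h1 : Real.exp (-(8 * c ^ 2 * m)) ≤ Real.exp (-(100 * L)) * Real.exp (-(100 * L)) := by
      rw [← Real.exp_add]
      apply Real.exp_le_exp.2
      have : 8 * c ^ 2 * m = 8 * (c ^ 2 * m) := by ring
      rw [this]
      linarith
    calc (W : ℝ) ≤ 4 * Real.exp (-(8 * c ^ 2 * m)) * n := hW
      _ ≤ 4 * (Real.exp (-(100 * L)) * Real.exp (-(100 * L))) * n :=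
          mul_le_mul_of_nonneg_right (mul_le_mul_of_nonneg_left h1 (by norm_num)) hn0
      _ = _ := by ring
  · exact h512.trans (mul_le_mul_of_nonneg_left hmL (by positivity))
  · exact hcm.trans (mul_le_mul_of_nonneg_left hmL hc.le)

theorem num_m (c L ω : ℝ) (hc : 0 < c) (hc32 : c ≤ 1 / 32) (m D N0 W n : ℕ)
    (hL : 1 ≤ L) (hX : (1024 : ℝ) ≤ Real.exp L) (hmL : (m : ℝ) ≤ Real.exp L)
    (hcL : 512 * L ≤ c ^ 2 * m) (hDl : Real.exp (5 * L) ≤ 2 * D)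
    (hω1 : Real.exp (-(100 * L)) ≤ ω) (hN0 : 0 < N0) (hN0' : (N0 : ℝ) ≤ 2 * m / c)
    (hW : (W : ℝ) ≤ 4 * Real.exp (-(8 * c ^ 2 * m)) * n) :
    ∃ F : ℕ, W ≠ 0 → ((N0 : ℝ) * (F + 1) ≤ Real.exp (-(2 * L)) * ω * n ∧
      2 * (m : ℝ) * ((⌊ω * n⌋₊ : ℕ) + W / (32 * c ^ 2)) < (F + 1) * D) := by
  obtain ⟨X, x, B, hXdef, hX1, hx0, hXx, hx1, he5, _, he2, hB0, hBω, hBx, hWB, hc2X, hcX, _, _⟩ :=
    consts c L ω hc hc32 m W n hL hX hmL hcL hω1 hW
  rw [he5] at hDl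
  rw [← hXdef] at hmL
  rw [he2]
  have hn0 : (0 : ℝ) ≤ n := Nat.cast_nonneg _
  have hm0 : (0 : ℝ) ≤ m := Nat.cast_nonneg _
  have hX0 : 0 < X := by linarith
  have hω0 : 0 < ω := lt_of_lt_of_le hB0 hBω
  have hN0R : (0 : ℝ) < N0 := by exact_mod_cast hN0
  -- `N0 ≤ X^2 / 8192`
  have hN0X : (N0 : ℝ) ≤ X ^ 2 / 8192 := by
    have h1 : 2 * (m : ℝ) / c ≤ X ^ 2 / 8192 := by
      rw [div_le_div_iff₀ hc (by norm_num)]
      have h2 : 16384 * X ≤ (c * X) * X := mul_le_mul_of_nonneg_right hcX hX0.le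
      have h3 : (c * X) * X = X ^ 2 * c := by ring
      have h4 : 2 * (m : ℝ) * 8192 ≤ 16384 * X := by linarith
      linarith
    linarith
  by_cases hW0 : W = 0
  · exact ⟨0, fun h => absurd hW0 h⟩
  have hW1 : (1 : ℝ) ≤ W := by exact_mod_cast Nat.one_le_iff_ne_zero.mpr hW0
  have hBX : B * X ^ 12 ≤ 1 := by
    have h1 : B * X ^ 12 ≤ x ^ 12 * X ^ 12 := mul_le_mul_of_nonneg_right hBx (by positivity)
    have h2 : x ^ 12 * X ^ 12 = (X * x) ^ 12 := by ring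
    rw [h2, hXx] at h1
    linarith
  -- `X ^ 12 ≤ 4 ω n`
  have hωn : X ^ 12 ≤ 4 * (ω * n) := by
    have h1 : 1 ≤ 4 * B * B * n := hW1.trans hWB
    have h2 : X ^ 12 * 1 ≤ X ^ 12 * (4 * B * B * n) := mul_le_mul_of_nonneg_left h1 (by positivity)
    have h3 : X ^ 12 * (4 * B * B * n) = (B * X ^ 12) * (4 * (B * n)) := by ring
    have h4 : (B * X ^ 12) * (4 * (B * n)) ≤ 1 * (4 * (B * n)) :=
      mul_le_mul_of_nonneg_right hBX (by positivity)
    have h5 : B * n ≤ ω * n := mul_le_mul_of_nonneg_right hBω hn0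
    linarith
  -- `W / (32 c^2) ≤ ω n`
  have hWω : (W : ℝ) / (32 * c ^ 2) ≤ ω * n := by
    rw [div_le_iff₀ (by positivity)]
    have h1 : 4 * B ≤ 32 * c ^ 2 := by
      have e1 : B ≤ x := by
        have : x ^ 12 ≤ x ^ 1 := pow_le_pow_of_le_one hx0.le (by linarith) (by norm_num)
        rw [pow_one] at this
        linarith
      have e2 : 512 * x ≤ (c ^ 2 * X) * x := mul_le_mul_of_nonneg_right hc2X hx0.le
      have e3 : (c ^ 2 * X) * x = c ^ 2 * (X * x) := by ring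
      rw [e3, hXx] at e2
      linarith
    calc (W : ℝ) ≤ 4 * B * B * n := hWB
      _ = (4 * B) * (B * n) := by ring
      _ ≤ (32 * c ^ 2) * (ω * n) := by
          apply mul_le_mul h1 (mul_le_mul_of_nonneg_right hBω hn0) (by positivity) (by positivity)
      _ = _ := by ring
  have hb : ((⌊ω * n⌋₊ : ℕ) : ℝ) ≤ ω * n := Nat.floor_le (by positivity)
  set y : ℝ := x ^ 2 * ω * n with hy
  have hyX : X ^ 2 * y = ω * n := by
    rw [hy]
    calc X ^ 2 * (x ^ 2 * ω * n) = (X * x) ^ 2 * (ω * n) := by ring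
      _ = _ := by rw [hXx]; ring
  have hy1 : X ^ 2 ≤ y := by
    have h1 : X ^ 2 * X ^ 2 ≤ X ^ 2 * y := by
      rw [hyX]
      have h2 : 4 * (X ^ 2 * X ^ 2) ≤ X ^ 12 := by
        have e1 : X ^ 12 = X ^ 8 * (X ^ 2 * X ^ 2) := by ring
        rw [e1]
        apply mul_le_mul_of_nonneg_right _ (by positivity)
        have e2 : (1 : ℝ) ≤ X ^ 7 := one_le_pow₀ (by linarith)
        have e3 : X ^ 8 = X ^ 7 * X := by ring
        nlinarith
      linarith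
    exact le_of_mul_le_mul_left h1 (by positivity)
  have hNy : (N0 : ℝ) ≤ y := by
    have : X ^ 2 / 8192 ≤ X ^ 2 := by
      have : 0 ≤ X ^ 2 := by positivity
      linarith
    linarith
  obtain ⟨a, hadef⟩ : ∃ a : ℕ, a = ⌊y / N0⌋₊ := ⟨_, rfl⟩
  have hy0 : 0 ≤ y := by positivity
  have ha1 : (a : ℝ) * N0 ≤ y := by
    have h1 : (a : ℝ) ≤ y / N0 := by
      rw [hadef]
      exact Nat.floor_le (by positivity)
    rwa [le_div_iff₀ hN0R] at h1
  have ha2 : y < (a + 1) * N0 := by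
    have h1 : y / N0 < a + 1 := by
      rw [hadef]
      exact Nat.lt_floor_add_one _
    rwa [div_lt_iff₀ hN0R] at h1
  have ha3 : 1 ≤ a := by
    by_contra hcon
    have h1 : a = 0 := by omega
    rw [h1] at ha2
    push_cast at ha2
    linarith
  have ha4 : (1 : ℝ) ≤ a := by exact_mod_cast ha3
  have haF : ((a - 1 : ℕ) : ℝ) + 1 = a := by
    have : a - 1 + 1 = a := by omega
    exact_mod_cast this
  refine ⟨a - 1, fun _ => ?_⟩
  rw [haF]
  refine ⟨by linarith [mul_comm (N0 : ℝ) a], ?_⟩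
  have h2 : y < 2 * a * N0 := by
    have : ((a : ℝ) + 1) * N0 ≤ 2 * a * N0 := by
      apply mul_le_mul_of_nonneg_right _ hN0R.le
      linarith
    linarith
  have h3 : 2 * (m : ℝ) * ((⌊ω * n⌋₊ : ℕ) + W / (32 * c ^ 2)) ≤ 2 * X * (2 * (ω * n)) :=
    mul_le_mul (by linarith) (by linarith) (by positivity) (by positivity)
  have h4 : 2 * X * (2 * (ω * n)) = 4 * X ^ 3 * y := by
    rw [← hyX]
    ring
  have h5 : 4 * X ^ 3 * y < 4 * X ^ 3 * (2 * a * N0) := mul_lt_mul_of_pos_left h2 (by positivity)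
  have h6 : 4 * X ^ 3 * (2 * a * N0) ≤ 4 * X ^ 3 * (2 * a * (X ^ 2 / 8192)) := by
    apply mul_le_mul_of_nonneg_left _ (by positivity)
    exact mul_le_mul_of_nonneg_left hN0X (by positivity)
  have h7 : 4 * X ^ 3 * (2 * a * (X ^ 2 / 8192)) = a * (X ^ 5 / 1024) := by ring
  have h8 : (a : ℝ) * (X ^ 5 / 1024) ≤ a * D := by
    apply mul_le_mul_of_nonneg_left _ (by linarith)
    have : 0 ≤ X ^ 5 := by positivity
    linarith
  linarith

theorem num_g (c L ω : ℝ) (hc : 0 < c) (hc32 : c ≤ 1 / 32) (m D W n T h b f l : ℕ)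
    (hL : 1 ≤ L) (hX : (1024 : ℝ) ≤ Real.exp L) (hmL : (m : ℝ) ≤ Real.exp L)
    (hcL : 512 * L ≤ c ^ 2 * m) (hDu : (D : ℝ) ≤ Real.exp (5 * L))
    (hDl : Real.exp (5 * L) ≤ 2 * D)
    (hω1 : Real.exp (-(100 * L)) ≤ ω) (hω2 : ω ≤ c / 128)
    (hW : (W : ℝ) ≤ 4 * Real.exp (-(8 * c ^ 2 * m)) * n)
    (hmn : m ≤ n) (hb : (b : ℝ) ≤ ω * n) (hf : 32 * c ^ 2 * (f : ℝ) ≤ W)
    (hl : D * l ≤ 2 * m * (b + f)) (hTh : T + h = n) (hhT : D * h ≤ m * T) :
    (f = 0 ∨ 8 * ((f + 1) * (D ^ 2 + 3)) ≤ T) ∧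
    (∀ j : ℕ, (2 : ℝ) ^ j ≤ 8 / c → 8 * ((b + f + 1 + 2 * l) * 2 ^ j) ≤ T) ∧
    (D ≤ n → (2 * m * h + h + 3 * (b + f + 1 + 2 * l) + 2 * f + 1 : ℝ) ≤
      max (Real.exp (-L)) (4 * ω) * n) := by
  obtain ⟨X, x, B, hXdef, hX1, hx0, hXx, hx1, he5, he1, he2, hB0, hBω, hBx, hWB, hc2X, hcX, hcm,
    _⟩ := consts c L ω hc hc32 m W n hL hX hmL hcL hω1 hW
  rw [he5] at hDl hDu
  rw [← hXdef] at hmL
  rw [he1]
  have hn0 : (0 : ℝ) ≤ n := Nat.cast_nonneg _
  have hm0 : (0 : ℝ) ≤ m := Nat.cast_nonneg _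
  have hf0 : (0 : ℝ) ≤ f := Nat.cast_nonneg _
  have hh0 : (0 : ℝ) ≤ h := Nat.cast_nonneg _
  have hl0 : (0 : ℝ) ≤ l := Nat.cast_nonneg _
  have hX0 : 0 < X := by linarith
  have hω0 : 0 < ω := lt_of_lt_of_le hB0 hBω
  have hD0 : (0 : ℝ) < D := by
    have : 0 < X ^ 5 := by positivity
    linarith
  have hmnR : (m : ℝ) ≤ n := by exact_mod_cast hmn
  have hThR : (T : ℝ) + h = n := by exact_mod_cast hTh
  have hTn : (T : ℝ) ≤ n := by linarith
  -- powers of `x`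
  have hpow : ∀ i : ℕ, x ^ (i + 1) * n ≤ x ^ i * n / 1024 := by
    intro i
    have h1 : x ^ (i + 1) * n = x * (x ^ i * n) := by ring
    rw [h1]
    have h2 : x * (x ^ i * n) ≤ 1 / 1024 * (x ^ i * n) :=
      mul_le_mul_of_nonneg_right hx1 (by positivity)
    linarith
  have hXk : ∀ i : ℕ, X ^ i * x ^ i = 1 := by
    intro i
    rw [← mul_pow, hXx, one_pow]
  -- `f`
  have hBn : B * n ≤ x ^ 12 * n := mul_le_mul_of_nonneg_right hBx hn0
  have hfB : 4096 * (f : ℝ) ≤ B * n := by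
    have h1 : 32 * c ^ 2 * (f : ℝ) ≤ 4 * B * B * n := hf.trans hWB
    have h2 : X * (32 * c ^ 2 * (f : ℝ)) ≤ X * (4 * B * B * n) :=
      mul_le_mul_of_nonneg_left h1 hX0.le
    have h3 : 512 * (32 * (f : ℝ)) ≤ (c ^ 2 * X) * (32 * f) :=
      mul_le_mul_of_nonneg_right hc2X (by positivity)
    have h4 : (c ^ 2 * X) * (32 * (f : ℝ)) = X * (32 * c ^ 2 * f) := by ring
    have h5 : X * (4 * B * B * n) = (X * B) * (4 * (B * n)) := by ring
    have h6 : X * B ≤ 1 := by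
      have e1 : X * B ≤ X * x ^ 12 := mul_le_mul_of_nonneg_left hBx hX0.le
      have e2 : X * x ^ 12 = (X * x) * x ^ 11 := by ring
      have e3 : x ^ 11 ≤ 1 := pow_le_one₀ hx0.le (by linarith)
      rw [e2, hXx] at e1
      linarith
    have h7 : (X * B) * (4 * (B * n)) ≤ 1 * (4 * (B * n)) :=
      mul_le_mul_of_nonneg_right h6 (by positivity)
    linarith
  have hfω : (f : ℝ) ≤ ω * n := by
    have h1 : B * n ≤ ω * n := mul_le_mul_of_nonneg_right hBω hn0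
    have h2 : 0 ≤ B * n := by positivity
    linarith
  have hfx : (f : ℝ) ≤ x ^ 12 * n := by
    have h2 : 0 ≤ B * n := by positivity
    linarith
  -- hubs
  have hhx : (h : ℝ) ≤ 2 * (x ^ 4 * n) := by
    have h1 : (D : ℝ) * h ≤ m * T := by exact_mod_cast hhT
    have h2 : (m : ℝ) * T ≤ X * n := mul_le_mul hmL hTn (Nat.cast_nonneg _) hX0.le
    have h3 : X ^ 5 / 2 * h ≤ D * h := mul_le_mul_of_nonneg_right (by linarith) hh0
    have h4 : X ^ 5 / 2 * (h : ℝ) ≤ X * n := by linarith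
    have h5 : (2 * x ^ 5) * (X ^ 5 / 2 * (h : ℝ)) ≤ (2 * x ^ 5) * (X * n) :=
      mul_le_mul_of_nonneg_left h4 (by positivity)
    have h6 : (2 * x ^ 5) * (X ^ 5 / 2 * (h : ℝ)) = (X ^ 5 * x ^ 5) * h := by ring
    have h7 : (2 * x ^ 5) * (X * (n : ℝ)) = 2 * ((X * x) * (x ^ 4 * n)) := by ring
    rw [h6, hXk 5, h7, hXx] at h5
    linarith
  -- changed hubs
  have hωn : ω * n ≤ n / 4096 := by
    have h1 : ω ≤ 1 / 4096 := by linarith
    have h2 : ω * n ≤ 1 / 4096 * n := mul_le_mul_of_nonneg_right h1 hn0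
    linarith
  have hlx : (l : ℝ) ≤ x ^ 4 * n := by
    have h1 : (D : ℝ) * l ≤ 2 * m * (b + f) := by exact_mod_cast hl
    have h2 : 2 * (m : ℝ) * (b + f) ≤ (2 * X) * (n / 2048) := by
      apply mul_le_mul (by linarith) (by linarith) (by positivity) (by positivity)
    have h3 : X ^ 5 / 2 * l ≤ D * l := mul_le_mul_of_nonneg_right (by linarith) hl0
    have h4 : X ^ 5 / 2 * (l : ℝ) ≤ (2 * X) * (n / 2048) := by linarith
    have h5 : (2 * x ^ 5) * (X ^ 5 / 2 * (l : ℝ)) ≤ (2 * x ^ 5) * ((2 * X) * (n / 2048)) :=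
      mul_le_mul_of_nonneg_left h4 (by positivity)
    have h6 : (2 * x ^ 5) * (X ^ 5 / 2 * (l : ℝ)) = (X ^ 5 * x ^ 5) * l := by ring
    have h7 : (2 * x ^ 5) * ((2 * X) * ((n : ℝ) / 2048)) = (X * x) * (x ^ 4 * n) / 512 := by ring
    rw [h6, hXk 5, h7, hXx] at h5
    have h8 : 0 ≤ x ^ 4 * n := by positivity
    linarith
  have p0 : x ^ 1 * n ≤ n / 1024 := by
    have := hpow 0
    rw [pow_zero, one_mul] at this
    exact this
  have p1 := hpow 1
  have p2 := hpow 2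
  have p3 := hpow 3
  have p4 := hpow 4
  norm_num at p0 p1 p2 p3 p4

  have q1 : 0 ≤ x * n := by positivity
  have q5 : 0 ≤ x ^ 5 * n := by positivity
  have hfx5 : (f : ℝ) ≤ x ^ 5 * n := by
    have h1 : x ^ 12 ≤ x ^ 5 := pow_le_pow_of_le_one hx0.le (by linarith) (by norm_num)
    have h2 : x ^ 12 * n ≤ x ^ 5 * n := mul_le_mul_of_nonneg_right h1 hn0
    linarith
  have hT9 : 9 / 10 * (n : ℝ) ≤ T := by linarith
  refine ⟨?_, ?_, ?_⟩
  · by_cases hf1 : f = 0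
    · exact Or.inl hf1
    · right
      have hf2 : (1 : ℝ) ≤ f := by exact_mod_cast Nat.one_le_iff_ne_zero.mpr hf1
      have h1 : (8 * ((f + 1) * (D ^ 2 + 3)) : ℝ) ≤ T := by
        have e0 : (D : ℝ) ^ 2 ≤ (X ^ 5) ^ 2 := pow_le_pow_left₀ hD0.le hDu 2
        have e0' : (X ^ 5) ^ 2 = X ^ 10 := by ring
        have e00 : (1 : ℝ) ≤ X ^ 10 := one_le_pow₀ (by linarith)
        have e1 : ((D : ℝ) ^ 2 + 3) ≤ 4 * X ^ 10 := by linarith
        have e3 : ((f : ℝ) + 1) * ((D : ℝ) ^ 2 + 3) ≤ (2 * f) * (4 * X ^ 10) :=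
          mul_le_mul (by linarith) e1 (by positivity) (by positivity)
        have e4 : (2 * (f : ℝ)) * (4 * X ^ 10) ≤ (2 * (x ^ 12 * n)) * (4 * X ^ 10) :=
          mul_le_mul_of_nonneg_right (by linarith) (by positivity)
        have e5 : (2 * (x ^ 12 * (n : ℝ))) * (4 * X ^ 10) = 8 * ((X ^ 10 * x ^ 10) * (x ^ 2 * n)) := by
          ring
        rw [e5, hXk 10] at e4
        linarith
      exact_mod_cast h1
  · intro j hj
    have h1 : (8 * ((b + f + 1 + 2 * l) * 2 ^ j) : ℝ) ≤ T := by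
      have e1 : (8 * ((b + f + 1 + 2 * l) * 2 ^ j) : ℝ) ≤
          8 * ((b + f + 1 + 2 * l) * (8 / c)) := by
        apply mul_le_mul_of_nonneg_left _ (by norm_num)
        exact mul_le_mul_of_nonneg_left hj (by positivity)
      have e2 : 64 * (b + f + 1 + 2 * l : ℝ) ≤ c * T := by
        have a1 : 64 * (ω * n) ≤ c * n / 2 := by
          have : ω * n ≤ c / 128 * n := mul_le_mul_of_nonneg_right hω2 hn0
          linarith
        have a2 : 16384 * (x * n) ≤ c * n := by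
          have b1 : 16384 * (x * n) ≤ (c * X) * (x * n) := mul_le_mul_of_nonneg_right hcX q1
          have b2 : (c * X) * (x * n) = c * ((X * x) * n) := by ring
          rw [b2, hXx] at b1
          linarith
        have a3 : 16384 ≤ c * n := hcm.trans (mul_le_mul_of_nonneg_left hmnR hc.le)
        have a4 : c * (9 / 10 * n) ≤ c * T := mul_le_mul_of_nonneg_left hT9 hc.le
        linarith
      have e3 : (8 * ((b + f + 1 + 2 * l) * (8 / c)) : ℝ) ≤ T := by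
        have : (8 * ((b + f + 1 + 2 * l) * (8 / c)) : ℝ) = (64 * (b + f + 1 + 2 * l)) / c := by
          ring
        rw [this, div_le_iff₀ hc]
        linarith
      linarith
    exact_mod_cast h1
  · intro hDn
    have hDnR : (D : ℝ) ≤ n := by exact_mod_cast hDn
    have h1 : 1 ≤ 2 * (x ^ 5 * n) := by
      have e1 : X ^ 5 / 2 ≤ n := by linarith
      have e2 : (2 * x ^ 5) * (X ^ 5 / 2) ≤ (2 * x ^ 5) * n :=
        mul_le_mul_of_nonneg_left e1 (by positivity)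
      have e3 : (2 * x ^ 5) * (X ^ 5 / 2) = X ^ 5 * x ^ 5 := by ring
      rw [e3, hXk 5] at e2
      linarith
    have h2 : (m : ℝ) * h ≤ 2 * (x ^ 3 * n) := by
      have e1 : (m : ℝ) * h ≤ X * (2 * (x ^ 4 * n)) := mul_le_mul hmL hhx hh0 hX0.le
      have e2 : X * (2 * (x ^ 4 * (n : ℝ))) = 2 * ((X * x) * (x ^ 3 * n)) := by ring
      rw [e2, hXx] at e1
      linarith
    have h3 : x * n ≤ max x (4 * ω) * n := mul_le_mul_of_nonneg_right (le_max_left _ _) hn0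
    have h4 : 4 * ω * n ≤ max x (4 * ω) * n := mul_le_mul_of_nonneg_right (le_max_right _ _) hn0
    have h5 : (2 * m * h + h + 3 * (b + f + 1 + 2 * l) + 2 * f + 1 : ℝ) =
        2 * (m * h) + h + 3 * b + 5 * f + 6 * l + 4 := by ring
    rw [h5]
    linarith

end Pool.Agent.helper57.BisM
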